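import Pool.Agent.U62.RB.Per

/-!
# The Poisson law for the primes with a prescribed trace of Frobenius

The conjecture of Lang and Trotter is based on a probabilistic model: the events `a_p(E) = a` for different primes `p` behave
like independent events of small probability, so that the number of such primes in a set of primes with bounded expected number
should have a Poisson distribution.  We prove that this is so for random members of an arbitrary polynomial family of elliptic
curves `E_c : y² = x³ + A(c) x + B(c)`, `A, B ∈ ℤ[c_1, ..., c_n]`: for several traces `r_i` and several finite sets `P_i` of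
primes (sets which belong to the same trace have to be disjoint) the numbers of the primes `p ∈ P_i` of good reduction with
`a_p(E_c) = r_i` are asymptotically independent Poisson variables, with an error which is uniform in the family, in the traces,
in the sets of primes, in the sizes of the boxes and in the values of the numbers.  In other words the primes with prescribed
traces form a Poisson process in the limit, for every trace, and the processes of different traces are independent.

The expected numbers are sums of the local densities (the proportions of the parameters modulo `p` for which the curve has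
good reduction and the trace `r`).  The only conditions are: the local densities are small, the expected numbers are bounded,
and the size of the box is at least a fixed power of the largest prime.  (For the family of all curves `y² = x³ + c_1 x + c_2`
the local density is by the class number formula of Deuring `H(4 p - r²) / (2 p)`, up to a term `O(1 / p)`, and thus at most
of the order `p ^ (-1/2) log p`; this is not used.)
-/

set_option autoImplicit false

namespace Pool.Agent.Results.MP_f1937f_nt.PoissonLaw

open Finset

/-- The number of the solutions of `y² = x³ + a x + b` modulo `p`. -/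
noncomputable def affinePoints (a b : ℤ) (p : ℕ) : ℕ :=
  ((range p ×ˢ range p).filter fun z : ℕ × ℕ =>
    (p : ℤ) ∣ (z.2 : ℤ) ^ 2 - ((z.1 : ℤ) ^ 3 + a * z.1 + b)).card

/-- The prime `p` does not divide `2 (4 a³ + 27 b²)`, so that `E : y² = x³ + a x + b` has good reduction at `p`, and the trace of
Frobenius `a_p(E) = p + 1 - #E(𝔽_p)` is `r`. -/
def HasTrace (r : ℤ) (p : ℕ) (a b : ℤ) : Prop :=
  ¬ (p : ℤ) ∣ 2 * (4 * a ^ 3 + 27 * b ^ 2) ∧ (p : ℤ) - affinePoints a b p = r

open scoped Classical in
/-- The number of the `p` in `P` of good reduction of `y² = x³ + a x + b` with `a_p = r`. -/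
noncomputable def count (a b r : ℤ) (P : Finset ℕ) : ℕ := (P.filter fun p => HasTrace r p a b).card

open scoped Classical in
/-- The local density: the proportion of the `c` modulo `p` for which `y² = x³ + A(c) x + B(c)` has good reduction at `p` and
the trace `r`. -/
noncomputable def density {n : ℕ} (A B : MvPolynomial (Fin n) ℤ) (r : ℤ) (p : ℕ) : ℝ :=
  (((Fintype.piFinset fun _ : Fin n => range p).filter fun t => HasTrace r p
    (MvPolynomial.eval (fun l => (t l : ℤ)) A) (MvPolynomial.eval (fun l => (t l : ℤ)) B)).card : ℝ) / (p : ℝ) ^ n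

/-- The expected number: the sum of the local densities. -/
noncomputable def expected {n : ℕ} (A B : MvPolynomial (Fin n) ℤ) (r : ℤ) (P : Finset ℕ) : ℝ :=
  ∑ p ∈ P, density A B r p

/-- The proportion of the integer vectors `c` with coordinates of absolute value at most `H` which have the property `Q`. -/
noncomputable def proportion {n : ℕ} (H : ℕ) (Q : (Fin n → ℤ) → Prop) : ℝ :=
  ({c : Fin n → ℤ | (∀ i, |c i| ≤ H) ∧ Q c}.ncard : ℝ) / (2 * H + 1 : ℝ) ^ n

theorem points_congr (p : ℕ) {a a' b b' : ℤ} (ha : (p : ℤ) ∣ a - a') (hb : (p : ℤ) ∣ b - b') :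
    affinePoints a b p = affinePoints a' b' p := by
  unfold affinePoints
  congr 1
  apply filter_congr
  intro xy _
  have h : (p : ℤ) ∣ ((xy.2 : ℤ) ^ 2 - ((xy.1 : ℤ) ^ 3 + a * xy.1 + b)) -
      ((xy.2 : ℤ) ^ 2 - ((xy.1 : ℤ) ^ 3 + a' * xy.1 + b')) := by
    have e : ((xy.2 : ℤ) ^ 2 - ((xy.1 : ℤ) ^ 3 + a * xy.1 + b)) -
      ((xy.2 : ℤ) ^ 2 - ((xy.1 : ℤ) ^ 3 + a' * xy.1 + b')) = -((a - a') * xy.1 + (b - b')) := by ring
    rw [e]
    exact (dvd_add (ha.mul_right _) hb).neg_right
  exact (dvd_iff_dvd_of_dvd_sub h)

theorem disc_congr (p : ℕ) {a a' b b' : ℤ} (ha : (p : ℤ) ∣ a - a') (hb : (p : ℤ) ∣ b - b') :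
    (p : ℤ) ∣ 2 * (4 * a ^ 3 + 27 * b ^ 2) ↔ (p : ℤ) ∣ 2 * (4 * a' ^ 3 + 27 * b' ^ 2) := by
  have h : (p : ℤ) ∣ 2 * (4 * a ^ 3 + 27 * b ^ 2) - 2 * (4 * a' ^ 3 + 27 * b' ^ 2) := by
    have e : 2 * (4 * a ^ 3 + 27 * b ^ 2) - 2 * (4 * a' ^ 3 + 27 * b' ^ 2) =
      (a - a') * (8 * (a ^ 2 + a * a' + a' ^ 2)) + (b - b') * (54 * (b + b')) := by ring
    rw [e]
    exact dvd_add (ha.mul_right _) (hb.mul_right _)
  exact dvd_iff_dvd_of_dvd_sub h

theorem trace_congr {r : ℤ} {p : ℕ} {a a' b b' : ℤ} (ha : (p : ℤ) ∣ a - a') (hb : (p : ℤ) ∣ b - b')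
    (h : HasTrace r p a b) : HasTrace r p a' b' := by
  unfold HasTrace at h ⊢
  rw [← points_congr p ha hb, ← disc_congr p ha hb]
  exact h

theorem eval_congr {n : ℕ} (f : MvPolynomial (Fin n) ℤ) (p : ℕ) {c d : Fin n → ℤ} (h : ∀ l, (p : ℤ) ∣ c l - d l) :
    (p : ℤ) ∣ MvPolynomial.eval c f - MvPolynomial.eval d f := by
  induction f using MvPolynomial.induction_on with
  | C z => simp
  | add f g hf hg =>
    rw [map_add, map_add]
    have e : MvPolynomial.eval c f + MvPolynomial.eval c g - (MvPolynomial.eval d f + MvPolynomial.eval d g) =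
        (MvPolynomial.eval c f - MvPolynomial.eval d f) + (MvPolynomial.eval c g - MvPolynomial.eval d g) := by ring
    rw [e]
    exact dvd_add hf hg
  | mul_X f i hf =>
    rw [map_mul, map_mul, MvPolynomial.eval_X, MvPolynomial.eval_X]
    have e : MvPolynomial.eval c f * c i - MvPolynomial.eval d f * d i =
        (MvPolynomial.eval c f - MvPolynomial.eval d f) * c i + MvPolynomial.eval d f * (c i - d i) := by ring
    rw [e]
    exact dvd_add (hf.mul_right _) ((h i).mul_left _)

/-- **The Poisson law for the primes with prescribed traces of Frobenius.**  For all `n`, `k`, `M` and `ε > 0` there is a `K` with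
the following property.  Let `E_c : y² = x³ + A(c) x + B(c)`, `A, B ∈ ℤ[c_1, ..., c_n]`, be any polynomial family of
elliptic curves, let `r_1, ..., r_k` be integers and `P_1, ..., P_k` finite sets of primes `p ≤ y`, disjoint if they belong
to the same trace. Suppose that the local densities `density A B r_i p`, `p ∈ P_i`, are at most `1 / K`, and that the
expected numbers `μ_i` are at most `M`.  Then, for every `H ≥ y ^ K` and all numbers `m_1, ..., m_k`, the proportion of
the `c` with `|c_j| ≤ H` for which exactly `m_i` of the primes `p ∈ P_i` are primes of good reduction with `a_p(E_c) = r_i`,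
for all `i`, is the product of the Poisson weights `exp(-μ_i) μ_i ^ m_i / m_i!` up to an error of at most `ε`. -/
theorem result (n k : ℕ) (M ε : ℝ) (hε : 0 < ε) : ∃ K : ℕ,
    ∀ (A B : MvPolynomial (Fin n) ℤ) (r : Fin k → ℤ) (P : Fin k → Finset ℕ) (y H : ℕ),
      (∀ i, ∀ p ∈ P i, p.Prime ∧ p ≤ y) → (∀ i j, i ≠ j → r i = r j → Disjoint (P i) (P j)) →
      (∀ i, ∀ p ∈ P i, K * density A B (r i) p ≤ 1) → (∀ i, expected A B (r i) (P i) ≤ M) → y ^ K ≤ H →
      ∀ m : Fin k → ℕ,
        |proportion H (fun c => ∀ i, count (MvPolynomial.eval c A) (MvPolynomial.eval c B) (r i) (P i) = m i) -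
          ∏ i, Real.exp (-expected A B (r i) (P i)) * expected A B (r i) (P i) ^ m i / (m i).factorial| ≤ ε := by
  classical
  obtain ⟨K, hK⟩ := Pool.Agent.U62.RB.poisson_per n k M hε
  refine ⟨K, fun A B r P y H hP hdis hd hμ hH m => ?_⟩
  exact hK (fun i p c => HasTrace (r i) p (MvPolynomial.eval c A) (MvPolynomial.eval c B)) P y H hP
    (fun i p _ c c' hc h => trace_congr (eval_congr A p hc) (eval_congr B p hc) h)
    (fun i j hij p hi hj c h => by
      have h1 : r i = r j := by rw [← h.1.2, ← h.2.2]
      exact (Finset.disjoint_left.1 (hdis i j hij h1) hi) hj)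
    hd hμ hH m

end Pool.Agent.Results.MP_f1937f_nt.PoissonLaw
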