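import Pool.Agent.U471.DQ.Fam

/-!
# Primes with a fixed Frobenius trace in all intervals, for all the curves of a family whose parameters are close to almost
all the values of real polynomials

From Mathlib: `MvPolynomial.eval z A`: the value of the integer polynomial `A` at the integer point `z`;
`Polynomial.eval`, `Polynomial.coeff`, `Polynomial.natDegree`: real polynomials; `Nat.Prime`: primes; `IsAlgebraic ℚ`:
algebraic numbers.

Method: Weyl's inequality without losses for all the coefficients at the same time (an inverse theorem, from the starting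
files for the top coefficient), a discrete Fejer kernel for the integer parts of several functions, uniform distribution
in residue classes with a power saving, high moments in terms of the variances (for rare events).
-/

set_option autoImplicit false

namespace Pool.Agent.Results.MP_f1937f_nt.RealPolynomialTraces

open Finset

/-- The polynomials `f 0, ..., f (r - 1)` are not on major arcs, at the scale `N` and with the parameter `R`: for every
integer vector `l ≠ 0` with all `|l i| ≤ R` there is `1 ≤ j ≤ d` such that the number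
`∑ i, l i * (coefficient of f i at X ^ j)` has a distance of more than `R / N ^ j` from all the integers. -/
def Generic {r : ℕ} (d N : ℕ) (R : ℝ) (f : Fin r → Polynomial ℝ) : Prop :=
  ∀ l : Fin r → ℤ, l ≠ 0 → (∀ i, (|l i| : ℝ) ≤ R) → ∃ j : ℕ, 1 ≤ j ∧ j ≤ d ∧
    ∀ b : ℤ, R / (N : ℝ) ^ j < |∑ i, (l i : ℝ) * (f i).coeff j - b|

/-- `α` has a finite irrationality exponent. -/
def FiniteType (α : ℝ) : Prop := ∃ (w : ℕ) (c : ℝ), 0 < c ∧ ∀ q : ℕ, 1 ≤ q → ∀ a : ℤ, c / (q : ℝ) ^ w ≤ |q * α - a|

/-- The number of the solutions `(x, y)` of `y² = x³ + a x + b` modulo `p`. -/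
def points (p : ℕ) (a b : ℤ) : ℕ :=
  ((range p ×ˢ range p).filter (fun xy : ℕ × ℕ => (p : ℤ) ∣ (xy.2 : ℤ) ^ 2 - ((xy.1 : ℤ) ^ 3 + a * xy.1 + b))).card

/-- `p` does not divide `2 (4 a³ + 27 b²)`, and the trace `p + 1 - #E(F_p) = p - points p a b` of `E : y² = x³ + a x + b` at
`p` is `h`. -/
def HasTrace (h : ℤ) (p : ℕ) (a b : ℤ) : Prop :=
  ¬ (p : ℤ) ∣ 2 * (4 * a ^ 3 + 27 * b ^ 2) ∧ (p : ℤ) - points p a b = h

open Classical in
/-- The number of the primes `x < p ≤ y` with the trace `h`, for `E : y² = x³ + a x + b`. -/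
noncomputable def traceCount (a b h : ℤ) (x y : ℕ) : ℕ :=
  (((range (y + 1)).filter Nat.Prime).filter (fun p => x < p ∧ HasTrace h p a b)).card

open Classical in
/-- The expected number for the family `y² = x³ + A(z) x + B(z)`: the sum over the primes `x < p ≤ y` of the proportion of the
vectors `ν` of residues modulo `p` with `HasTrace h p A(ν) B(ν)`. -/
noncomputable def model {r : ℕ} (A B : MvPolynomial (Fin r) ℤ) (h : ℤ) (x y : ℕ) : ℝ :=
  ∑ p ∈ (range (y + 1)).filter Nat.Prime, (((Fintype.piFinset (fun _ : Fin r => range p)).filter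
    (fun ν => x < p ∧ HasTrace h p (MvPolynomial.eval (fun i => (ν i : ℤ)) A) (MvPolynomial.eval (fun i => (ν i : ℤ)) B))).card : ℝ) /
      (p : ℝ) ^ r

lemma points_congr (p : ℕ) {A A' B B' : ℤ} (hA : (p : ℤ) ∣ A - A') (hB : (p : ℤ) ∣ B - B') :
    points p A B = points p A' B' := by
  unfold points
  congr 1
  apply filter_congr
  intro xy _
  have h : (p : ℤ) ∣ ((xy.2 : ℤ) ^ 2 - ((xy.1 : ℤ) ^ 3 + A * xy.1 + B)) -
      ((xy.2 : ℤ) ^ 2 - ((xy.1 : ℤ) ^ 3 + A' * xy.1 + B')) := by
    have e : ((xy.2 : ℤ) ^ 2 - ((xy.1 : ℤ) ^ 3 + A * xy.1 + B)) -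
      ((xy.2 : ℤ) ^ 2 - ((xy.1 : ℤ) ^ 3 + A' * xy.1 + B')) = -((A - A') * xy.1 + (B - B')) := by ring
    rw [e]
    exact (dvd_add (hA.mul_right _) hB).neg_right
  exact (dvd_iff_dvd_of_dvd_sub h)

lemma trace_congr (h : ℤ) (p : ℕ) {A A' B B' : ℤ} (hA : (p : ℤ) ∣ A - A') (hB : (p : ℤ) ∣ B - B') :
    HasTrace h p A B ↔ HasTrace h p A' B' := by
  unfold HasTrace
  rw [points_congr p hA hB]
  have h : (p : ℤ) ∣ 2 * (4 * A ^ 3 + 27 * B ^ 2) - 2 * (4 * A' ^ 3 + 27 * B' ^ 2) := by
    have e : 2 * (4 * A ^ 3 + 27 * B ^ 2) - 2 * (4 * A' ^ 3 + 27 * B' ^ 2) =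
      (A - A') * (8 * (A ^ 2 + A * A' + A' ^ 2)) + (B - B') * (54 * (B + B')) := by ring
    rw [e]
    exact dvd_add (hA.mul_right _) (hB.mul_right _)
  rw [dvd_iff_dvd_of_dvd_sub h]

/-- the traces are not large -/
lemma trace_small {h : ℤ} {p : ℕ} {a b : ℤ} (hh : HasTrace h p a b) : |h| ≤ (p : ℤ) * p := by
  have h1 : points p a b ≤ p * p := by
    unfold points
    refine (card_filter_le _ _).trans ?_
    rw [card_product, card_range]
  rw [← hh.2, abs_le]
  have h3 : (points p a b : ℤ) ≤ p * p := by exact_mod_cast h1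
  have h4 : (0 : ℤ) ≤ points p a b := Int.natCast_nonneg _
  have h5 : (p : ℤ) ≤ p * p := by
    rcases Nat.eq_zero_or_pos p with h0 | h0
    · subst h0
      simp
    · have : (1 : ℤ) ≤ p := by exact_mod_cast h0
      nlinarith
  have h6 : (0 : ℤ) ≤ p := Int.natCast_nonneg _
  constructor <;> linarith

/-- **(1)** Let `r` and `d ≥ 1` be integers and let `δ > 0`. There are `κ > 0` and `C` such that the following holds for all
`N, R ≥ 1`, for all real polynomials `f 0, ..., f (r - 1)` of degree at most `d` which are not on major arcs (`Generic`) and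
for ALL families `E_z : y² = x³ + A(z) x + B(z)` of curves with `r` parameters, `A, B ∈ ℤ[T_0, ..., T_{r - 1}]`.

All the integers `0 ≤ n < N` with at most `C N R ^ (- κ)` exceptions are such that for ALL integer vectors `z` with all
`|z i - f i (n)| ≤ R ^ κ`, for ALL integers `h` and ALL `x, y ≤ R ^ κ`, with `M = model A B h x y` the expected number: the
number of the primes `x < p ≤ y` at which `E_z` has good reduction and the trace `h` differs from `M` by at most
`C y ^ δ ((1 + log R) (1 + log R + M)) ^ (1 / 2)`.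

**(2)** If for every `i` there is `1 ≤ j ≤ d` such that the coefficient of `f i` at `X ^ j` has a finite irrationality exponent
and the coefficients of the other polynomials at `X ^ j` are zero (for `r = 1`: if a nonconstant coefficient has a finite
irrationality exponent), then (1) applies with `R = N ^ β`, for some `β > 0` and all large `N`. This includes irrational
algebraic coefficients. -/
theorem result :
    (∀ (r d : ℕ), 1 ≤ d → ∀ δ : ℝ, 0 < δ → ∃ κ C : ℝ, 0 < κ ∧ 0 < C ∧
      ∀ (N : ℕ) (R : ℝ) (f : Fin r → Polynomial ℝ), 1 ≤ N → 1 ≤ R → (∀ i, (f i).natDegree ≤ d) → Generic d N R f →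
      ∀ A B : MvPolynomial (Fin r) ℤ,
      ∃ E : Finset ℕ, (E.card : ℝ) ≤ C * (N * R ^ (-κ)) ∧ ∀ n : ℕ, n < N → n ∉ E →
        ∀ z : Fin r → ℤ, (∀ i, |(z i : ℝ) - (f i).eval (n : ℝ)| ≤ R ^ κ) →
        ∀ h : ℤ, ∀ x y : ℕ, (x : ℝ) ≤ R ^ κ → (y : ℝ) ≤ R ^ κ →
          |(traceCount (MvPolynomial.eval z A) (MvPolynomial.eval z B) h x y : ℝ) - model A B h x y| ≤
            C * ((y : ℝ) ^ δ * √((1 + Real.log R) * (1 + Real.log R + model A B h x y)))) ∧
    (∀ (r d : ℕ) (f : Fin r → Polynomial ℝ),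
      (∀ i, ∃ j, 1 ≤ j ∧ j ≤ d ∧ FiniteType ((f i).coeff j) ∧ ∀ i', i' ≠ i → (f i').coeff j = 0) →
      ∃ β : ℝ, 0 < β ∧ ∃ N₀ : ℕ, ∀ N : ℕ, N₀ ≤ N → Generic d N ((N : ℝ) ^ β) f) ∧
    (∀ α : ℝ, Irrational α → IsAlgebraic ℚ α → FiniteType α) := by
  classical
  refine ⟨?_, ?_, fun α h h' => Pool.Agent.U471.DQ.finType_alg h h'⟩
  · intro r d hd δ hδ
    obtain ⟨κ, C, h1, h1', h3, H⟩ := Pool.Agent.U471.DQ.near_count_fin r d hd 6 (by norm_num) δ hδ
    obtain ⟨κ', hκ'⟩ : ∃ κ' : ℝ, κ' = κ / 3 := ⟨_, rfl⟩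
    have hκ'0 : 0 < κ' := by rw [hκ']; positivity
    have hκ3 : κ' + (κ' + κ') = κ := by rw [hκ']; ring
    refine ⟨κ', C, hκ'0, by linarith, ?_⟩
    intro N R f hN hR hf hgen A B
    have hR0 : 0 < R := by linarith
    have hRκ : 1 ≤ R ^ κ' := Real.one_le_rpow hR hκ'0.le
    have hRκ2 : 1 ≤ R ^ (κ' + κ') := Real.one_le_rpow hR (by linarith)
    obtain ⟨X, hX⟩ : ∃ X : ℕ, X = ⌊R ^ κ'⌋₊ := ⟨_, rfl⟩
    obtain ⟨T, hT⟩ : ∃ T : ℕ, T = ⌊R ^ (κ' + κ')⌋₊ := ⟨_, rfl⟩
    have hXr : (X : ℝ) ≤ R ^ κ' := by rw [hX]; exact Nat.floor_le (by positivity)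
    have hTr : (T : ℝ) ≤ R ^ (κ' + κ') := by rw [hT]; exact Nat.floor_le (by positivity)
    obtain ⟨S, hS⟩ : ∃ S : Finset (ℕ × ℤ), S = range (X + 1) ×ˢ Icc (-(T : ℤ)) T := ⟨_, rfl⟩
    have hSc : (S.card : ℝ) ≤ 6 * R ^ κ := by
      rw [hS, card_product, card_range, Int.card_Icc]
      have e1 : ((T : ℤ) + 1 - -(T : ℤ)).toNat = 2 * T + 1 := by omega
      rw [e1]
      push_cast
      have h4 : (X : ℝ) + 1 ≤ 2 * R ^ κ' := by linarith
      have h5 : 2 * (T : ℝ) + 1 ≤ 3 * R ^ (κ' + κ') := by linarith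
      calc ((X : ℝ) + 1) * (2 * T + 1) ≤ (2 * R ^ κ') * (3 * R ^ (κ' + κ')) := mul_le_mul h4 h5 (by positivity) (by positivity)
        _ = 6 * R ^ κ := by
          have e : R ^ κ = R ^ κ' * R ^ (κ' + κ') := by rw [← Real.rpow_add hR0, hκ3]
          rw [e]
          ring
    obtain ⟨E, _, hE2, hE3⟩ := H N R f hN hR hf hgen (ℕ × ℤ) S hSc
      (fun t p z => t.1 < p ∧ HasTrace t.2 p (MvPolynomial.eval z A) (MvPolynomial.eval z B)) (by
        intro t p _ u u' hu
        rw [trace_congr t.2 p (Pool.Agent.U471.DQ.mv_congr A hu) (Pool.Agent.U471.DQ.mv_congr B hu)])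
    have hpow : R ^ κ' ≤ R ^ κ := Real.rpow_le_rpow_of_exponent_le hR (by linarith)
    refine ⟨E, ?_, fun n hn hnE z hz h x y hx hy => ?_⟩
    · refine hE2.trans ?_
      apply mul_le_mul_of_nonneg_left _ (by linarith)
      apply mul_le_mul_of_nonneg_left _ (Nat.cast_nonneg _)
      apply Real.rpow_le_rpow_of_exponent_le hR
      linarith
    · by_cases hh : (x, h) ∈ S
      · have h7 := hE3 n (mem_range.2 hn) hnE z (fun i => (hz i).trans hpow) (x, h) hh y (hy.trans hpow)
        have e1 : Pool.Agent.U471.DQ.cnt (fun p z => (x, h).1 < p ∧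
            HasTrace (x, h).2 p (MvPolynomial.eval z A) (MvPolynomial.eval z B)) z y =
            traceCount (MvPolynomial.eval z A) (MvPolynomial.eval z B) h x y := by
          unfold traceCount Pool.Agent.U471.DQ.cnt Pool.Agent.U471.DQ.prs
          congr!
        have e2 : Pool.Agent.U471.DQ.mdl (fun p z => (x, h).1 < p ∧
            HasTrace (x, h).2 p (MvPolynomial.eval z A) (MvPolynomial.eval z B)) y = model A B h x y := by
          unfold model Pool.Agent.U471.DQ.mdl Pool.Agent.U471.DQ.prs Pool.Agent.U471.DQ.bx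
          congr!
        rw [e1, e2] at h7
        exact h7
      · -- large traces do not occur
        have hxX : x ≤ X := by rw [hX]; exact Nat.le_floor hx
        have hlarge : (T : ℤ) < |h| := by
          by_contra hcon
          push Not at hcon
          apply hh
          rw [hS, mem_product, mem_range, mem_Icc]
          exact ⟨by simp only; omega, abs_le.1 hcon⟩
        have hyT : y * y ≤ T := by
          rw [hT]
          apply Nat.le_floor
          push_cast
          rw [Real.rpow_add hR0]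
          exact mul_le_mul hy hy (by positivity) (by positivity)
        have hno : ∀ p : ℕ, p ≤ y → ∀ a b : ℤ, ¬ HasTrace h p a b := by
          intro p hp a b hab
          have h4 := trace_small hab
          have h5 : p * p ≤ y * y := Nat.mul_le_mul hp hp
          have h6 : (p : ℤ) * p ≤ T := by exact_mod_cast h5.trans hyT
          linarith
        have e1 : traceCount (MvPolynomial.eval z A) (MvPolynomial.eval z B) h x y = 0 := by
          unfold traceCount
          rw [card_eq_zero]
          apply filter_false_of_mem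
          intro p hp hcon
          rw [mem_filter, mem_range] at hp
          exact hno p (by omega) _ _ hcon.2
        have e2 : model A B h x y = 0 := by
          unfold model
          apply sum_eq_zero
          intro p hp
          rw [mem_filter, mem_range] at hp
          rw [filter_false_of_mem (fun ν _ hcon => hno p (by omega) _ _ hcon.2), card_empty, Nat.cast_zero, zero_div]
        rw [e1, e2, Nat.cast_zero, sub_zero, abs_zero]
        positivity
  · intro r d f h
    obtain ⟨β, h1, _, h3⟩ := Pool.Agent.U471.DQ.gen_of_type d f h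
    exact ⟨β, h1, h3⟩

end Pool.Agent.Results.MP_f1937f_nt.RealPolynomialTraces
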