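import Pool.Agent.R459.Bsd4
import Pool.Agent.U710.LE.BB

/-!
# Lang-Trotter counts for all the curves `y² = x³ + a x + n`, `a` fixed, `n` near almost all values of functions which grow
faster than any power

From the starting library (`Pool.Agent.W263.BSD`): `GoodPrime a n p`: `p` is a prime which does not divide
`2 (4 a³ + 27 n²)`; `pointCount a n p`: the number of the affine points of `y² = x³ + a x + n` modulo `p`.

Method (`Pool.Agent.U710.LE`, new): exponential sums over the integer parts of `exp (α (log m) ^ γ + β)`, with the mean value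
theorem of Vinogradov for a degree which tends to infinity; they are small at all frequencies at a distance of at least
`exp (-(log y) ^ η)`, `η < 3 - 2 γ`, from the integers. The passage from the characteristic function to sums over primes of
functions of residues, for almost all members of a family, is from the starting files (`Pool.Agent.R459.Eq`,
`Pool.Agent.N794.CG`); the elementary lemmas are those of the starting file `NonIntegralOrderCurves`.
-/

set_option autoImplicit false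

namespace Pool.Agent.Results.MP_f1937f_nt.SubexponentialTraces

open Finset Filter Pool.Agent.R459.Eq
open Pool.Agent.W263.BSD (GoodPrime pointCount)

/-- The sequence: `S α β γ m = ⌊exp (α (log m) ^ γ + β)⌋`. -/
noncomputable def S (α β γ : ℝ) (m : ℕ) : ℕ := ⌊Real.exp (α * Real.log m ^ γ + β)⌋₊

/-- `p` is a prime of good reduction of `y² = x³ + a x + n`, and the trace of Frobenius `a_p = p - N_p` is `r`. -/
def Trace (r : ℤ) (p : ℕ) (a n : ℤ) : Prop := GoodPrime a n p ∧ (p : ℤ) - pointCount a n p = r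

open Classical in
/-- The number `P_{E, r}(x)` of the primes `p ≤ x` of good reduction of `E : y² = x³ + a x + n` with `a_p(E) = r`. -/
noncomputable def langTrotter (a n r : ℤ) (x : ℕ) : ℕ := ((range (x + 1)).filter (fun p => Trace r p a n)).card

open Classical in
/-- The sum over the primes `p ≤ x` of the proportion of the residues `ν` modulo `p` for which `p` is a prime of good reduction
of `y² = x³ + a x + ν` with trace `r`. -/
noncomputable def model (a r : ℤ) (x : ℕ) : ℝ :=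
  ∑ p ∈ (range (x + 1)).filter Nat.Prime, (((range p).filter (fun ν : ℕ => Trace r p a ν)).card : ℝ) / p

open Classical in
/-- The sum over the primes `p ≤ x` of the proportion of the pairs `(α, ν)` of residues modulo `p` for which `p` is a prime of
good reduction of `y² = x³ + α x + ν` with trace `r`. -/
noncomputable def modelPairs (r : ℤ) (x : ℕ) : ℝ :=
  ∑ p ∈ (range (x + 1)).filter Nat.Prime,
    (((range p ×ˢ range p).filter (fun z : ℕ × ℕ => Trace r p z.1 z.2)).card : ℝ) / (p : ℝ) ^ 2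

lemma pri_eq (x : ℕ) [DecidablePred Nat.Prime] : (range (x + 1)).filter Nat.Prime = pri x := by
  unfold pri
  congr!

lemma langTrotter_eq (a n r : ℤ) (x : ℕ) : langTrotter a n r x = cntR (Trace r) a n x := by
  classical
  unfold langTrotter cntR
  congr 1
  ext p
  simp only [mem_filter, mem_range, mem_pri]
  constructor
  · rintro ⟨h1, h2⟩
    exact ⟨⟨by omega, h2.1.1⟩, h2⟩
  · rintro ⟨h1, h2⟩
    exact ⟨by omega, h2⟩

lemma model_eq (a r : ℤ) (x : ℕ) : model a r x = ∑ p ∈ pri x, Pool.Agent.R459.Eq.dens (Trace r) a p := by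
  classical
  unfold model Pool.Agent.R459.Eq.dens
  rw [pri_eq]

lemma modelPairs_eq (r : ℤ) (x : ℕ) : modelPairs r x = ∑ p ∈ pri x, dens2 (Trace r) p := by
  classical
  unfold modelPairs dens2
  rw [pri_eq]

lemma trace_per (r : ℤ) (p : ℕ) (a a' n n' : ℤ) (h : (p : ℤ) ∣ a - a') (h' : (p : ℤ) ∣ n - n') :
    Trace r p a n ↔ Trace r p a' n' := by
  have e1 : ((a : ℤ) : ZMod p) = ((a' : ℤ) : ZMod p) := by
    rw [← sub_eq_zero, ← Int.cast_sub, ZMod.intCast_zmod_eq_zero_iff_dvd]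
    exact h
  have e2 : ((n : ℤ) : ZMod p) = ((n' : ℤ) : ZMod p) := by
    rw [← sub_eq_zero, ← Int.cast_sub, ZMod.intCast_zmod_eq_zero_iff_dvd]
    exact h'
  have h1 : GoodPrime a n p ↔ GoodPrime a' n' p := by
    unfold GoodPrime
    rw [← ZMod.intCast_zmod_eq_zero_iff_dvd, ← ZMod.intCast_zmod_eq_zero_iff_dvd]
    push_cast
    rw [e1, e2]
  have h2 : pointCount a n p = pointCount a' n' p := by
    unfold pointCount
    rw [e1, e2]
  unfold Trace
  rw [h1, h2]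

/-- a trace `σ j` occurs for one `j` at most -/
lemma trace_few (σ : ℤ) (hσ : σ = 1 ∨ σ = -1) (p : ℕ) (a n : ℤ) (Q : Finset ℕ) (hQ : ∀ j ∈ Q, Trace (σ * j) p a n) :
    Q.card ≤ Nat.log 2 p + 3 := by
  have h1 : Q.card ≤ 1 := by
    rw [card_le_one]
    intro j hj j' hj'
    have h2 := (hQ j hj).2
    have h3 := (hQ j' hj').2
    rw [h2] at h3
    have h4 : (j : ℤ) = j' := by
      rcases hσ with h | h <;> rw [h] at h3 <;> linarith
    exact_mod_cast h4
  omega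

/-- the counts for the curves with a given first coefficient, traces of a given sign -/
def QT (δ : ℝ) (σ : ℤ) (a : ℤ) (x : ℕ) (n : ℤ) : Prop :=
  ∀ t : ℕ, (t : ℝ) ≤ (x : ℝ) ^ (δ / 2) →
    |(cntR (Trace (σ * t)) a n x : ℝ) - ∑ p ∈ pri x, Pool.Agent.R459.Eq.dens (Trace (σ * t)) a p| ≤
    √(max 1 (∑ p ∈ pri (2 * x), Pool.Agent.R459.Eq.dens (Trace (σ * t)) a p)) * (x : ℝ) ^ δ

/-- the mean values for the curves with a given first coefficient, traces of a given sign -/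
def QM (δ : ℝ) (σ : ℤ) (_ : Unit) (x : ℕ) (a : ℤ) : Prop :=
  ∀ t : ℕ, (t : ℝ) ≤ (x : ℝ) ^ (δ / 2) →
    |∑ p ∈ pri x, Pool.Agent.R459.Eq.dens (Trace (σ * t)) a p - ∑ p ∈ pri x, dens2 (Trace (σ * t)) p| ≤
    √(max 1 (∑ p ∈ pri (2 * x), dens2 (Trace (σ * t)) p)) * (x : ℝ) ^ δ

open Pool.Agent.N794.CG in
lemma eng_T (δ : ℝ) (hδ : 0 < δ) (hδ1 : δ ≤ 1 / 2) (σ : ℤ) (hσ : σ = 1 ∨ σ = -1) :
    Eng (fun X : ℕ => 2 * (X : ℝ) ^ (-(δ / 2))) (QT δ σ) := by
  intro b hb A γ hγ0 hγ1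
  obtain ⟨W, hW, H⟩ := dom_two_count b hb A γ hγ0 hγ1 δ hδ hδ1
  refine ⟨W, hW, fun F κ hF hκ => ?_⟩
  obtain ⟨X₀, J⟩ := H F κ hF hκ
  refine ⟨X₀, fun X hX k Λ ι Ω w v hdom a => ?_⟩
  have h1 := (J X hX k Λ ι Ω w v hdom (fun j : ℕ => Trace (σ * j)) (fun j p _ a a' n n' => trace_per _ p a a' n n')
    (fun p _ => trace_few σ hσ p)).1 a
  exact h1.mono fun n hn x hXx hxW => (hn x hXx hxW).2

open Pool.Agent.N794.CG in
lemma eng_M (δ : ℝ) (hδ : 0 < δ) (hδ1 : δ ≤ 1 / 2) (σ : ℤ) (hσ : σ = 1 ∨ σ = -1) :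
    Eng (fun X : ℕ => 2 * (X : ℝ) ^ (-(δ / 2))) (QM δ σ) := by
  intro b hb A γ hγ0 hγ1
  obtain ⟨W, hW, H⟩ := dom_two_count b hb A γ hγ0 hγ1 δ hδ hδ1
  refine ⟨W, hW, fun F κ hF hκ => ?_⟩
  obtain ⟨X₀, J⟩ := H F κ hF hκ
  refine ⟨X₀, fun X hX k Λ ι Ω w v hdom _ => ?_⟩
  have h1 := (J X hX k Λ ι Ω w v hdom (fun j : ℕ => Trace (σ * j)) (fun j p _ a a' n n' => trace_per _ p a a' n n')
    (fun p _ => trace_few σ hσ p)).2
  exact h1.mono fun n hn x hXx hxW => (hn x hXx hxW).2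

lemma sgn_nat (r : ℤ) : ∃ j : ℕ, (r = 1 * j ∨ r = -1 * j) ∧ (j : ℝ) = |(r : ℝ)| := by
  refine ⟨r.natAbs, ?_, ?_⟩
  · rcases Int.natAbs_eq r with h | h
    · left
      omega
    · right
      omega
  · rw [← Int.cast_abs, Int.abs_eq_natAbs]
    rfl

open Classical in
lemma card_or {ι : Type} (s : Finset ι) (P Q T : ι → Prop) (h : ∀ i ∈ s, P i → Q i → T i) (a b : ℝ)
    (h1 : ((s.filter (fun i => ¬ P i)).card : ℝ) ≤ a) (h2 : ((s.filter (fun i => ¬ Q i)).card : ℝ) ≤ b) :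
    ((s.filter (fun i => ¬ T i)).card : ℝ) ≤ a + b := by
  have h3 : s.filter (fun i => ¬ T i) ⊆ s.filter (fun i => ¬ P i) ∪ s.filter (fun i => ¬ Q i) := by
    intro i hi
    obtain ⟨hi1, hi2⟩ := mem_filter.1 hi
    rw [mem_union, mem_filter, mem_filter]
    by_contra hcon
    push Not at hcon
    exact hi2 (h i hi1 (hcon.1 hi1) (hcon.2 hi1))
  have h4 : ((s.filter (fun i => ¬ T i)).card : ℝ) ≤
      ((s.filter (fun i => ¬ P i)).card : ℝ) + ((s.filter (fun i => ¬ Q i)).card : ℝ) := by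
    exact_mod_cast le_trans (card_le_card h3) (card_union_le _ _)
  linarith

open Classical in
/-- Let `S(m) = ⌊exp (α (log m) ^ γ + β)⌋`, `α > 0`, `1 < γ < 3/2` (it grows faster than any power of `m`, and has only `N ^ o(1)`
members up to `N`). Let `0 < η < 3 - 2 γ`, `0 < δ ≤ 1 / 2`, and let `κ ≠ 0` and `A` be integers. Let `X` and `y` be
sufficiently large, `y / (log y) ^ A ≤ h ≤ y / log y`, and let `c₀` and `R ≥ 0` be ANY integers.

(1) For EVERY integer `a`: all but at most `4 (2 R + 1) X ^ (- δ / 2) h` of the integers `m` in `(y - h, y]` are such that for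
ALL `n` with `|n - (c₀ + κ S(m))| ≤ R`, ALL `x` with `X ≤ x ≤ exp ((log y) ^ η)` and ALL integers `r` with `|r| ≤ x ^ (δ / 2)`:
the number `P_{E, r}(x)` of the primes `p ≤ x` of good reduction of `E : y² = x³ + a x + n` with `a_p(E) = r` differs from the
sum `M_a(r, x)` over the primes `p ≤ x` of the proportion of the residues `ν` modulo `p` such that `y² = x³ + a x + ν` has the
trace `r` by at most `x ^ δ (max 1 M_a(r, 2 x)) ^ (1 / 2)`.

(2) All but at most `4 (2 R + 1) X ^ (- δ / 2) h` of the integers `m` in `(y - h, y]` are such that for ALL `a` with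
`|a - (c₀ + κ S(m))| ≤ R`, ALL these `x` and `r`: `M_a(r, x)` differs from the sum `M(r, x)` over the primes `p ≤ x` of the
proportion of the PAIRS of residues modulo `p` for which the curve has the trace `r` by at most
`x ^ δ (max 1 M(r, 2 x)) ^ (1 / 2)`. -/
theorem result (α β γ η δ : ℝ) (hα : 0 < α) (hγ1 : 1 < γ) (hγ2 : γ < 3 / 2) (hη0 : 0 < η) (hη : η < 3 - 2 * γ)
    (hδ : 0 < δ) (hδ1 : δ ≤ 1 / 2) (κ : ℤ) (hκ : κ ≠ 0) (A : ℕ) :
    ∃ X₀ y₀ : ℕ, ∀ X : ℕ, X₀ ≤ X → ∀ y h : ℕ, y₀ ≤ y → (y : ℝ) / Real.log y ^ A ≤ h → (h : ℝ) ≤ y / Real.log y →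
      ∀ (c₀ : ℤ) (R : ℕ),
      (∀ a : ℤ, (((Ioc (y - h) y).filter (fun m : ℕ => ¬ ∀ n : ℤ, |n - (c₀ + κ * (S α β γ m : ℕ))| ≤ R →
        ∀ x : ℕ, X ≤ x → (x : ℝ) ≤ Real.exp (Real.log y ^ η) → ∀ r : ℤ, (|r| : ℝ) ≤ (x : ℝ) ^ (δ / 2) →
          |(langTrotter a n r x : ℝ) - model a r x| ≤ √(max 1 (model a r (2 * x))) * (x : ℝ) ^ δ)).card : ℝ) ≤
        4 * (2 * (R : ℝ) + 1) * (X : ℝ) ^ (-(δ / 2)) * h) ∧
      (((Ioc (y - h) y).filter (fun m : ℕ => ¬ ∀ a : ℤ, |a - (c₀ + κ * (S α β γ m : ℕ))| ≤ R →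
        ∀ x : ℕ, X ≤ x → (x : ℝ) ≤ Real.exp (Real.log y ^ η) → ∀ r : ℤ, (|r| : ℝ) ≤ (x : ℝ) ^ (δ / 2) →
          |model a r x - modelPairs r x| ≤ √(max 1 (modelPairs r (2 * x))) * (x : ℝ) ^ δ)).card : ℝ) ≤
        4 * (2 * (R : ℝ) + 1) * (X : ℝ) ^ (-(δ / 2)) * h := by
  obtain ⟨X₁, y₁, H₁⟩ := Pool.Agent.U710.LE.eng_sub (eng_T δ hδ hδ1 1 (Or.inl rfl)) α β γ η hα hγ1 hγ2 hη0 hη A κ hκ
  obtain ⟨X₂, y₂, H₂⟩ := Pool.Agent.U710.LE.eng_sub (eng_T δ hδ hδ1 (-1) (Or.inr rfl)) α β γ η hα hγ1 hγ2 hη0 hη A κ hκ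
  obtain ⟨X₃, y₃, H₃⟩ := Pool.Agent.U710.LE.eng_sub (eng_M δ hδ hδ1 1 (Or.inl rfl)) α β γ η hα hγ1 hγ2 hη0 hη A κ hκ
  obtain ⟨X₄, y₄, H₄⟩ := Pool.Agent.U710.LE.eng_sub (eng_M δ hδ hδ1 (-1) (Or.inr rfl)) α β γ η hα hγ1 hγ2 hη0 hη A κ hκ
  refine ⟨X₁ + X₂ + X₃ + X₄, y₁ + y₂ + y₃ + y₄, fun X hX y h hy hh1 hh2 c₀ R => ⟨fun a => ?_, ?_⟩⟩
  · have e : 4 * (2 * (R : ℝ) + 1) * (X : ℝ) ^ (-(δ / 2)) * h =
      (2 * (R : ℝ) + 1) * (2 * (X : ℝ) ^ (-(δ / 2))) * h + (2 * (R : ℝ) + 1) * (2 * (X : ℝ) ^ (-(δ / 2))) * h := by ring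
    rw [e]
    refine card_or _ _ _ _ (fun m _ g1 g2 => ?_) _ _ (H₁ X (by omega) y h (by omega) hh1 hh2 c₀ R a)
      (H₂ X (by omega) y h (by omega) hh1 hh2 c₀ R a)
    intro n hn x hXx hxZ r hr
    obtain ⟨j, hj | hj, hj2⟩ := sgn_nat r
    · have h1 := g1 n hn x hXx hxZ j (by rw [hj2]; exact hr)
      rw [langTrotter_eq, model_eq, model_eq, hj]
      exact h1
    · have h1 := g2 n hn x hXx hxZ j (by rw [hj2]; exact hr)
      rw [langTrotter_eq, model_eq, model_eq, hj]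
      exact h1
  · have e : 4 * (2 * (R : ℝ) + 1) * (X : ℝ) ^ (-(δ / 2)) * h =
      (2 * (R : ℝ) + 1) * (2 * (X : ℝ) ^ (-(δ / 2))) * h + (2 * (R : ℝ) + 1) * (2 * (X : ℝ) ^ (-(δ / 2))) * h := by ring
    rw [e]
    refine card_or _ _ _ _ (fun m _ g1 g2 => ?_) _ _ (H₃ X (by omega) y h (by omega) hh1 hh2 c₀ R ())
      (H₄ X (by omega) y h (by omega) hh1 hh2 c₀ R ())
    intro n hn x hXx hxZ r hr
    obtain ⟨j, hj | hj, hj2⟩ := sgn_nat r
    · have h1 := g1 n hn x hXx hxZ j (by rw [hj2]; exact hr)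
      rw [model_eq, modelPairs_eq, modelPairs_eq, hj]
      exact h1
    · have h1 := g2 n hn x hXx hxZ j (by rw [hj2]; exact hr)
      rw [model_eq, modelPairs_eq, modelPairs_eq, hj]
      exact h1

end Pool.Agent.Results.MP_f1937f_nt.SubexponentialTraces
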